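import Mathlib
import Pool.Agent.V11221.OmegaStar

/-!
# The space `C_k(ω*, ω*)` has exactly `2^𝔠` orbits
-/

namespace Pool.Agent.Results.MP_7279d0_gt.OrbitCount

open Set Filter Topology TopologicalSpace
open Pool.Agent.V11221.OmegaStar

/-- The orbit equivalence relation of the group of autohomeomorphisms of `Y`. -/
def orbitSetoid (Y : Type*) [TopologicalSpace Y] : Setoid Y where
  r y z := ∃ h : Y ≃ₜ Y, h y = z
  iseqv :=
    ⟨fun y => ⟨Homeomorph.refl Y, rfl⟩,
     fun {y z} ⟨h, hh⟩ => ⟨h.symm, by rw [← hh]; exact h.symm_apply_apply y⟩,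
     fun {x y z} ⟨h, hh⟩ ⟨k, hk⟩ => ⟨h.trans k, by
      rw [Homeomorph.trans_apply, hh, hk]⟩⟩

/-- The set of orbits of `Y`. -/
def Orbits (Y : Type*) [TopologicalSpace Y] : Type _ := Quotient (orbitSetoid Y)

/-- The invariant: the set of ultrafilters which arise as traces of the point on sequences of
open sets. -/
def tr {Y : Type*} [TopologicalSpace Y] (g : Y) : Set (Ultrafilter ℕ) :=
  {p | ∃ (u : ℕ → Y) (W : ℕ → Set Y), (∀ n, IsOpen (W n) ∧ u n ∈ W n) ∧
    ∀ A : Set ℕ, (A ∈ p → g ∈ closure (u '' A)) ∧ (g ∈ closure (⋃ n ∈ A, W n) → A ∈ p)}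

theorem tr_map {Y : Type*} [TopologicalSpace Y] (g : Y) (Φ : Y ≃ₜ Y) : tr g ⊆ tr (Φ g) := by
  rintro p ⟨u, W, h1, h2⟩
  refine ⟨Φ ∘ u, fun n => Φ '' W n, fun n => ⟨Φ.isOpenMap _ (h1 n).1, u n, (h1 n).2, rfl⟩, ?_⟩
  intro A
  constructor
  · intro hA
    rw [Set.image_comp, ← Φ.image_closure]
    exact ⟨g, (h2 A).1 hA, rfl⟩
  · intro hg
    apply (h2 A).2
    rw [← Set.image_iUnion₂, ← Φ.image_closure] at hg
    obtain ⟨y, hy, hyg⟩ := hg
    rwa [Φ.injective hyg] at hy

/-- Basic clopen sets of `C_k(ω*, ω*)`. -/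
def box (F : Finset (Set ℕ × Set ℕ)) : Set C(OmegaStar, OmegaStar) :=
  {g | ∀ q ∈ F, Set.MapsTo g (stars q.1) (stars q.2)}

theorem exists_box {W : Set C(OmegaStar, OmegaStar)} (hW : IsOpen W)
    {g : C(OmegaStar, OmegaStar)} (hg : g ∈ W) : ∃ F, g ∈ box F ∧ box F ⊆ W := by
  classical
  have hbasis := isTopologicalBasis_of_subbasis
    (ContinuousMap.compactOpen_eq (X := OmegaStar) (Y := OmegaStar))
  obtain ⟨_, ⟨f, ⟨hf1, hf2⟩, rfl⟩, hgf, hfW⟩ := hbasis.exists_subset_of_mem_open hg hW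
  have h1 : ∀ S ∈ f, ∃ q : Set ℕ × Set ℕ, Set.MapsTo g (stars q.1) (stars q.2) ∧
      ∀ g' : C(OmegaStar, OmegaStar), Set.MapsTo g' (stars q.1) (stars q.2) → g' ∈ S := by
    intro S hS
    obtain ⟨K, hK, O, hO, rfl⟩ := hf2 hS
    have hgS : Set.MapsTo g K O := hgf _ hS
    obtain ⟨B, hB1, hB2⟩ := exists_star_between (hK.image g.continuous) hO
      (Set.image_subset_iff.2 hgS)
    have hcl : IsClopen (g ⁻¹' stars B) :=
      IsClopen.preimage ⟨isClosed_star B, isOpen_star B⟩ g.continuous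
    obtain ⟨A, hA⟩ := exists_star_eq hcl
    refine ⟨(A, B), ?_, ?_⟩
    · intro x hx
      have : x ∈ g ⁻¹' stars B := hA ▸ hx
      exact this
    · intro g' hg' x hx
      apply hB2
      apply hg'
      change x ∈ stars A
      rw [← hA]
      exact hB1 (Set.mem_image_of_mem g hx)
  choose! q hq1 hq2 using h1
  refine ⟨hf1.toFinset.image q, ?_, ?_⟩
  · intro r hr
    obtain ⟨S, hS, rfl⟩ := Finset.mem_image.1 hr
    exact hq1 S (hf1.mem_toFinset.1 hS)
  · intro g' hg'
    apply hfW
    intro S hS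
    exact hq2 S hS g' (hg' _ (Finset.mem_image.2 ⟨S, hf1.mem_toFinset.2 hS, rfl⟩))

theorem card_code : Cardinal.mk (ℕ → Finset (Set ℕ × Set ℕ)) = Cardinal.continuum := by
  have h1 : Cardinal.mk (Set ℕ × Set ℕ) = Cardinal.continuum := by simp
  have h2 : Cardinal.mk (Finset (Set ℕ × Set ℕ)) = Cardinal.continuum := by
    rw [Cardinal.mk_finset_of_infinite, h1]
  rw [← Cardinal.power_def, h2, Cardinal.mk_nat, Cardinal.continuum_power_aleph0]

theorem card_tr (g : C(OmegaStar, OmegaStar)) : Cardinal.mk (tr g) ≤ Cardinal.continuum := by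
  have h1 : ∀ p : tr g, ∃ F : ℕ → Finset (Set ℕ × Set ℕ), ∀ A : Set ℕ,
      (A ∈ p.1 ↔ g ∈ closure (⋃ n ∈ A, box (F n))) := by
    rintro ⟨p, u, W, h1, h2⟩
    choose F hF1 hF2 using fun n => exists_box (h1 n).1 (h1 n).2
    refine ⟨F, fun A => ⟨fun hA => ?_, fun hA => ?_⟩⟩
    · refine closure_mono ?_ ((h2 A).1 hA)
      rintro _ ⟨n, hn, rfl⟩
      exact Set.mem_biUnion hn (hF1 n)
    · apply (h2 A).2
      refine closure_mono ?_ hA
      exact Set.iUnion₂_mono fun n _ => hF2 n
  choose F hF using h1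
  have hinj : Function.Injective F := by
    intro p p' h
    apply Subtype.ext
    apply Ultrafilter.ext
    intro A
    rw [hF p A, hF p' A, h]
  calc Cardinal.mk (tr g) ≤ Cardinal.mk (ℕ → Finset (Set ℕ × Set ℕ)) :=
        Cardinal.mk_le_of_injective hinj
    _ = Cardinal.continuum := card_code

/-- A partition of `ℕ` into infinitely many infinite sets. -/
def piece (n : ℕ) : Set ℕ := {k | (Nat.unpair k).1 = n}

theorem piece_infinite (n : ℕ) : (piece n).Infinite := by
  apply Set.infinite_of_injective_forall_mem (f := fun m : ℕ => Nat.pair n m)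
  · intro a b hab
    exact (Nat.pair_eq_pair.1 hab).2
  · intro m
    simp [piece]

/-- Points of the pieces. -/
noncomputable def pt (n : ℕ) : OmegaStar := (star_nonempty (piece_infinite n)).choose

theorem pt_mem (n : ℕ) : piece n ∈ (pt n).1 := (star_nonempty (piece_infinite n)).choose_spec

/-- The `p`-limit of the points. -/
noncomputable def lim (p : Ultrafilter ℕ) : OmegaStar :=
  ⟨p.bind fun n => (pt n).1, by
    intro k hk
    have h1 : ({k} : Set ℕ) ∈ p.bind fun n => (pt n).1 := by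
      rw [hk]
      simp
    have h2 : {n | ({k} : Set ℕ) ∈ (pt n).1} ∈ p := h1
    have h3 : {n | ({k} : Set ℕ) ∈ (pt n).1} = ∅ := by
      ext n
      simp only [Set.mem_ofPred_eq, Set.mem_empty_iff_false, iff_false]
      intro h
      exact infinite_of_mem (pt n) h (Set.finite_singleton k)
    rw [h3] at h2
    exact p.empty_notMem h2⟩

theorem mem_lim (p : Ultrafilter ℕ) (A : Set ℕ) : A ∈ (lim p).1 ↔ {n | A ∈ (pt n).1} ∈ p :=
  Iff.rfl

theorem mem_tr (p : Ultrafilter ℕ) :
    p ∈ tr (ContinuousMap.const OmegaStar (lim p) : C(OmegaStar, OmegaStar)) := by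
  refine ⟨fun n => ContinuousMap.const OmegaStar (pt n),
    fun n => {g | Set.MapsTo g Set.univ (stars (piece n))},
    fun n => ⟨ContinuousMap.isOpen_setOfPred_mapsTo isCompact_univ (isOpen_star _),
      fun _ _ => pt_mem n⟩, ?_⟩
  intro A
  constructor
  · intro hA
    have h1 : lim p ∈ closure (pt '' A) := by
      rw [mem_closure_iff]
      intro V hV hp
      obtain ⟨B, hB, hBV⟩ := exists_star hV hp
      obtain ⟨n, hn1, hn2⟩ := p.nonempty_of_mem (Filter.inter_mem ((mem_lim p B).1 hB) hA)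
      exact ⟨pt n, hBV hn1, n, hn2, rfl⟩
    have h2 : Continuous (ContinuousMap.const OmegaStar : OmegaStar → C(OmegaStar, OmegaStar)) :=
      ContinuousMap.continuous_const'
    have h3 := image_closure_subset_closure_image h2 (Set.mem_image_of_mem _ h1)
    rw [← Set.image_comp] at h3
    exact h3
  · intro hg
    have hclosed : IsClosed {g : C(OmegaStar, OmegaStar) | ∀ y, g y ∈ stars (⋃ n ∈ A, piece n)} := by
      rw [Set.ofPred_forall]
      exact isClosed_iInter fun y => (isClosed_star _).preimage (continuous_eval_const y)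
    have h1 : (ContinuousMap.const OmegaStar (lim p) : C(OmegaStar, OmegaStar)) ∈
        {g : C(OmegaStar, OmegaStar) | ∀ y, g y ∈ stars (⋃ n ∈ A, piece n)} := by
      refine closure_minimal ?_ hclosed hg
      refine Set.iUnion₂_subset fun n hn => ?_
      intro g hg' y
      have h2 : piece n ∈ (g y).1 := hg' (Set.mem_univ y)
      exact Filter.mem_of_superset h2 (Set.subset_biUnion_of_mem (u := piece) hn)
    have h2 : (⋃ n ∈ A, piece n) ∈ (lim p).1 := h1 (lim p)
    rw [mem_lim] at h2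
    apply Filter.mem_of_superset h2
    intro n hn
    have h3 : (⋃ n ∈ A, piece n) ∩ piece n ∈ (pt n).1 := Filter.inter_mem hn (pt_mem n)
    obtain ⟨k, hk1, hk2⟩ := (pt n).1.nonempty_of_mem h3
    simp only [Set.mem_iUnion] at hk1
    obtain ⟨m, hm, hkm⟩ := hk1
    have : m = n := by
      rw [← (hkm : (Nat.unpair k).1 = m), ← (hk2 : (Nat.unpair k).1 = n)]
    exact this ▸ hm

theorem card_le : Cardinal.mk C(OmegaStar, OmegaStar) ≤ 2 ^ Cardinal.continuum := by
  have h1 : ∀ (g : C(OmegaStar, OmegaStar)) (A : Set ℕ), ∃ B : Set ℕ, g ⁻¹' stars A = stars B :=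
    fun g A => exists_star_eq
      (IsClopen.preimage ⟨isClosed_star A, isOpen_star A⟩ g.continuous)
  choose F hF using h1
  have hinj : Function.Injective F := by
    intro g g' h
    ext1 x
    apply Subtype.ext
    apply Ultrafilter.ext
    intro A
    have h2 : x ∈ g ⁻¹' stars A ↔ x ∈ g' ⁻¹' stars A := by rw [hF g A, hF g' A, h]
    exact h2
  have h2 : Cardinal.mk (Set ℕ → Set ℕ) = 2 ^ Cardinal.continuum := by
    rw [← Cardinal.power_def]
    have : Cardinal.mk (Set ℕ) = Cardinal.continuum := by simp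
    rw [this]
    rw [← Cardinal.two_power_aleph0, ← Cardinal.power_mul, Cardinal.two_power_aleph0,
      Cardinal.aleph0_mul_continuum]
  rw [← h2]
  exact Cardinal.mk_le_of_injective hinj

/-- The space `C_k(ω*, ω*)` has exactly `2^𝔠` orbits. -/
theorem result : Cardinal.mk (Orbits C(OmegaStar, OmegaStar)) = 2 ^ Cardinal.continuum := by
  apply le_antisymm
  · exact (Cardinal.mk_le_of_surjective (Quotient.mk_surjective (s := orbitSetoid _))).trans
      card_le
  · by_contra hlt
    push Not at hlt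
    let φ : Ultrafilter ℕ → Orbits C(OmegaStar, OmegaStar) := fun p =>
      Quotient.mk (orbitSetoid _) (ContinuousMap.const OmegaStar (lim p))
    have h1 : ∀ o : Orbits C(OmegaStar, OmegaStar), Cardinal.mk (φ ⁻¹' {o}) ≤
        Cardinal.continuum := by
      intro o
      obtain ⟨g, rfl⟩ := Quotient.mk_surjective (s := orbitSetoid _) o
      refine (Cardinal.mk_le_mk_of_subset ?_).trans (card_tr g)
      intro p hp
      obtain ⟨h, hh⟩ : ∃ h : C(OmegaStar, OmegaStar) ≃ₜ C(OmegaStar, OmegaStar),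
        h (ContinuousMap.const OmegaStar (lim p)) = g := Quotient.exact hp
      rw [← hh]
      exact tr_map _ h (mem_tr p)
    have h2 := Cardinal.mk_le_mk_mul_of_mk_preimage_le φ h1
    have h3 : Cardinal.mk (Orbits C(OmegaStar, OmegaStar)) * Cardinal.continuum <
        2 ^ Cardinal.continuum :=
      Cardinal.mul_lt_of_lt (Cardinal.aleph0_le_continuum.trans (Cardinal.cantor _).le) hlt
        (Cardinal.cantor _)
    exact absurd (card_ultrafilter.trans h2) (not_le.2 h3)

end Pool.Agent.Results.MP_7279d0_gt.OrbitCount
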